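import Pool.Agent.H.MP_ba0d78_gt.A

set_option autoImplicit false

open Set Filter Topology TopologicalSpace

namespace Pool.Agent.H.MP_2f53c7

/-- the Mrowka space of a family of subsets of the naturals -/
def Psi (M : Set (Set ℕ)) : Type := ℕ ⊕ M

variable {M : Set (Set ℕ)}

instance : TopologicalSpace (Psi M) where
  IsOpen U := ∀ A : M, Sum.inr A ∈ U → {n | n ∈ A.1 ∧ Sum.inl n ∉ U}.Finite
  isOpen_univ := fun _ _ => finite_empty.subset fun _ h => h.2 trivial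
  isOpen_inter := fun _ _ hs ht A h => ((hs A h.1).union (ht A h.2)).subset fun n hn => by
    by_contra k
    exact hn.2 ⟨not_not.1 fun a => k (.inl ⟨hn.1, a⟩), not_not.1 fun a => k (.inr ⟨hn.1, a⟩)⟩
  isOpen_sUnion := fun _ hs A ⟨t, h1, h2⟩ => (hs t h1 A h2).subset fun _ hn =>
    ⟨hn.1, fun k => hn.2 ⟨t, h1, k⟩⟩

lemma open_iff {U : Set (Psi M)} :
    IsOpen U ↔ ∀ A : M, Sum.inr A ∈ U → {n | n ∈ A.1 ∧ Sum.inl n ∉ U}.Finite := Iff.rfl

lemma closed_of {D : Set (Psi M)} (h : {n | Sum.inl n ∈ D}.Finite) : IsClosed D :=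
  ⟨fun _ _ => h.subset fun _ hn => not_not.1 hn.2⟩

lemma open_of {U : Set (Psi M)} (h : ∀ A : M, Sum.inr A ∉ U) : IsOpen U :=
  fun A hA => (h A hA).elim

lemma discrete_of {D : Set (Psi M)} (h : {n | Sum.inl n ∈ D}.Finite) : IsDiscrete D := by
  rw [isDiscrete_iff_forall_mem_exists_isOpen]
  intro x hx
  refine ⟨(D \ {x})ᶜ, (closed_of (h.subset fun _ k => k.1)).isOpen_compl, ?_⟩
  ext y
  by_cases hy : y = x <;> simp [hy, hx]

/-- small clopen neighbourhoods -/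
lemma small (hM : ∀ A ∈ M, ∀ B ∈ M, A ≠ B → (A ∩ B).Finite) (x : Psi M) {U : Set (Psi M)}
    (hU : IsOpen U) (hx : x ∈ U) : ∃ V, IsClopen V ∧ x ∈ V ∧ V ⊆ U ∧
      ∀ A : M, Sum.inr A ∈ V → Sum.inr A = x := by
  rcases x with n | A
  · exact ⟨{Sum.inl n}, ⟨closed_of ((finite_singleton n).subset fun _ h => Sum.inl.inj h),
      open_of fun _ h => by cases h⟩, rfl, singleton_subset_iff.2 hx, fun _ h => h⟩
  · refine ⟨{y | y ∈ U ∧ (y = Sum.inr A ∨ ∃ n ∈ A.1, y = Sum.inl n)}, ⟨⟨fun B hB => ?_⟩,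
      fun B hB => ?_⟩, ⟨hx, .inl rfl⟩, fun _ h => h.1, fun B hB => ?_⟩
    · refine (hM B B.2 A A.2 fun e => hB ?_).subset fun n hn => ⟨hn.1, ?_⟩
      · rw [show B = A from Subtype.ext e]; exact ⟨hx, .inl rfl⟩
      · obtain ⟨-, h | ⟨m, h1, h2⟩⟩ := not_not.1 hn.2
        · cases h
        · cases h2; exact h1
    · obtain ⟨h0, h | ⟨m, -, h2⟩⟩ := hB
      · cases h
        exact (hU _ h0).subset fun n hn => ⟨hn.1, fun k => hn.2 ⟨k, .inr ⟨n, hn.1, rfl⟩⟩⟩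
      · cases h2
    · obtain ⟨-, h | ⟨m, -, h2⟩⟩ := hB
      · exact h
      · cases h2

lemma t3 (hM : ∀ A ∈ M, ∀ B ∈ M, A ≠ B → (A ∩ B).Finite) : T3Space (Psi M) := by
  have : T1Space (Psi M) := ⟨fun x => closed_of
    ((finite_singleton x).preimage Sum.inl_injective.injOn)⟩
  have : RegularSpace (Psi M) := .of_exists_mem_nhds_isClosed_subset fun x s hs => by
    obtain ⟨V, v1, v2, v3, -⟩ := small hM x isOpen_interior (mem_interior_iff_mem_nhds.2 hs)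
    exact ⟨V, v1.2.mem_nhds v2, v1.1, v3.trans interior_subset⟩
  infer_instance

/-- for a maximal family every infinite set of isolated points accumulates -/
lemma acc (h3 : ∀ B : Set ℕ, B.Infinite → ∃ A ∈ M, (A ∩ B).Infinite) {B : Set ℕ}
    (hB : B.Infinite) : ∃ A : M, ∀ U : Set (Psi M), IsOpen U → Sum.inr A ∈ U →
      {n | n ∈ B ∧ Sum.inl n ∈ U}.Infinite := by
  obtain ⟨A, h1, h2⟩ := h3 B hB
  exact ⟨⟨A, h1⟩, fun U hU h => (h2.sdiff (hU _ h)).mono fun n hn =>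
    ⟨hn.1.2, not_not.1 fun k => hn.2 ⟨hn.1.1, k⟩⟩⟩

end Pool.Agent.H.MP_2f53c7
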